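import Pool.Agent.V8H59.RF.Num

set_option autoImplicit false

/-!
MP_7fb13b_lc, Q1 (the in-particular question): there are absolute constants `c > 0` and
`0 < α0 < 1` such that every algorithm with two-coordinate unitaries for the rotated Fourier matrix
`X_α`, `0 < α < α0`, has at least `c α √(log (1 / α)) n log n` steps.
-/

open Matrix

namespace Pool.Agent.Results.MP_7fb13b_lc.SqrtLogGain

noncomputable section

/-- The normalized Fourier matrix. -/
def F (n : ℕ) : Matrix (Fin n) (Fin n) ℂ := Matrix.of fun k l =>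
  ((1 / √n : ℝ) : ℂ) * Complex.exp (-2 * Real.pi * Complex.I * (k : ℕ) * (l : ℕ) / n)

/-- The skew-Hermitian matrix `G`. -/
def G (n : ℕ) : Matrix (Fin n ⊕ Fin n) (Fin n ⊕ Fin n) ℂ := fromBlocks 0 (F n) (-(F n)ᴴ) 0

/-- The rotated Fourier matrix `X_α`. -/
def X (n : ℕ) (α : ℝ) : Matrix (Fin n ⊕ Fin n) (Fin n ⊕ Fin n) ℂ :=
  ((Real.cos α : ℝ) : ℂ) • (1 : Matrix (Fin n ⊕ Fin n) (Fin n ⊕ Fin n) ℂ) +
    ((Real.sin α : ℝ) : ℂ) • G n

/-- Two-coordinate unitary matrices: unitary matrices which agree with the identity matrix except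
on the rows and columns of two distinct coordinates. -/
def TwoCoord {ι : Type} [Fintype ι] [DecidableEq ι] (R : Matrix ι ι ℂ) : Prop :=
  ∃ i j : ι, i ≠ j ∧ R ∈ Matrix.unitaryGroup ι ℂ ∧
    ∀ k l : ι, ¬ ((k = i ∨ k = j) ∧ (l = i ∨ l = j)) → R k l = (1 : Matrix ι ι ℂ) k l

/-- `U = R_m ⋯ R_1` is the product of `m` two-coordinate unitary matrices. -/
def IsAlgorithm {ι : Type} [Fintype ι] [DecidableEq ι] (m : ℕ) (U : Matrix ι ι ℂ) : Prop :=
  ∃ L : List (Matrix ι ι ℂ), L.length = m ∧ (∀ R ∈ L, TwoCoord R) ∧ L.prod = U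

/-! ### The Fourier matrix -/

lemma F_mul (n : ℕ) : F n * (F n)ᴴ = 1 := by
  ext k l
  have hn : 0 < n := k.pos
  have hnc : (n : ℂ) ≠ 0 := by exact_mod_cast hn.ne'
  set ζ : ℂ := Complex.exp (-2 * Real.pi * Complex.I * ((k : ℕ) - (l : ℕ)) / n) with hζ
  have hterm : ∀ j : Fin n, F n k j * (F n)ᴴ j l = (1 / (n : ℂ)) * ζ ^ (j : ℕ) := by
    intro j
    rw [conjTranspose_apply]
    unfold F
    rw [Matrix.of_apply, Matrix.of_apply, Complex.star_def, map_mul, Complex.conj_ofReal,
      ← Complex.exp_conj, hζ, ← Complex.exp_nat_mul]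
    have e1 : (starRingEnd ℂ) (-2 * Real.pi * Complex.I * (l : ℕ) * (j : ℕ) / n) =
        2 * Real.pi * Complex.I * (l : ℕ) * (j : ℕ) / n := by
      simp only [map_div₀, map_mul, map_neg, Complex.conj_ofReal, Complex.conj_I,
        Complex.conj_natCast, map_ofNat]
      ring
    rw [e1]
    have e2 : ((1 / √(n : ℝ) : ℝ) : ℂ) * ((1 / √(n : ℝ) : ℝ) : ℂ) = 1 / (n : ℂ) := by
      rw [← Complex.ofReal_mul, div_mul_div_comm, Real.mul_self_sqrt (Nat.cast_nonneg n)]
      push_cast
      ring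
    have e3 : Complex.exp (-2 * Real.pi * Complex.I * (k : ℕ) * (j : ℕ) / n) *
        Complex.exp (2 * Real.pi * Complex.I * (l : ℕ) * (j : ℕ) / n) =
        Complex.exp ((j : ℕ) * (-2 * Real.pi * Complex.I * ((k : ℕ) - (l : ℕ)) / n)) := by
      rw [← Complex.exp_add]
      congr 1
      ring
    calc _ = (((1 / √(n : ℝ) : ℝ) : ℂ) * ((1 / √(n : ℝ) : ℝ) : ℂ)) *
        (Complex.exp (-2 * Real.pi * Complex.I * (k : ℕ) * (j : ℕ) / n) *
        Complex.exp (2 * Real.pi * Complex.I * (l : ℕ) * (j : ℕ) / n)) := by ring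
      _ = _ := by rw [e2, e3]
  rw [Matrix.mul_apply, Finset.sum_congr rfl fun j _ => hterm j, ← Finset.mul_sum,
    Fin.sum_univ_eq_sum_range (fun j => ζ ^ j) n]
  by_cases hkl : k = l
  · have : ζ = 1 := by
      rw [hζ, hkl, sub_self, mul_zero, zero_div, Complex.exp_zero]
    rw [this, hkl, Matrix.one_apply_eq]
    simp only [one_pow, Finset.sum_const, Finset.card_range, nsmul_eq_mul, mul_one]
    exact one_div_mul_cancel hnc
  · rw [Matrix.one_apply_ne hkl]
    have h1 : ζ ≠ 1 := by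
      intro h
      rw [hζ, Complex.exp_eq_one_iff] at h
      obtain ⟨a, ha⟩ := h
      have h2 : (2 * Real.pi * Complex.I : ℂ) ≠ 0 := Complex.two_pi_I_ne_zero
      have h3 : -(((k : ℕ) : ℂ) - (l : ℕ)) = a * n := by
        have h4 : (2 * Real.pi * Complex.I : ℂ) * (-(((k : ℕ) : ℂ) - (l : ℕ))) =
            (2 * Real.pi * Complex.I : ℂ) * (a * n) := by
          have h5 := congrArg (fun x => x * (n : ℂ)) ha
          simp only [div_mul_cancel₀ _ hnc] at h5
          linear_combination h5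
        exact mul_left_cancel₀ h2 h4
      have h6 : -(((k : ℕ) : ℤ) - (l : ℕ)) = a * n := by exact_mod_cast h3
      have hk := k.isLt
      have hl := l.isLt
      have h7 : a = 0 := by
        by_contra h8
        have h9 : 1 ≤ |a| := Int.one_le_abs h8
        have h10 : |a * (n : ℤ)| < n := by
          rw [← h6, abs_neg, abs_lt]
          constructor <;> omega
        rw [abs_mul, abs_of_nonneg (Int.natCast_nonneg n)] at h10
        nlinarith
      rw [h7, zero_mul] at h6
      apply hkl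
      apply Fin.ext
      omega
    have h2 : ζ ^ n = 1 := by
      rw [hζ, ← Complex.exp_nat_mul, mul_div_cancel₀ _ hnc, Complex.exp_eq_one_iff]
      refine ⟨-(((k : ℕ) : ℤ) - (l : ℕ)), ?_⟩
      push_cast
      ring
    have h3 : ∑ j ∈ Finset.range n, ζ ^ j = 0 := by
      rw [geom_sum_eq h1, h2, sub_self, zero_div]
    rw [h3, mul_zero]

lemma F_mul' (n : ℕ) : (F n)ᴴ * F n = 1 := mul_eq_one_comm.1 (F_mul n)

lemma F_norm (n : ℕ) (k l : Fin n) : ‖F n k l‖ = 1 / √n := by
  unfold F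
  rw [Matrix.of_apply, norm_mul, Complex.norm_real, Real.norm_of_nonneg (by positivity)]
  have : (-2 * Real.pi * Complex.I * (k : ℕ) * (l : ℕ) / n : ℂ) =
      ((-2 * Real.pi * (k : ℕ) * (l : ℕ) / n : ℝ) : ℂ) * Complex.I := by
    push_cast
    ring
  rw [this, Complex.norm_exp_ofReal_mul_I, mul_one]

lemma G_star (n : ℕ) : (G n)ᴴ = -G n := by
  unfold G
  rw [fromBlocks_conjTranspose, fromBlocks_neg, conjTranspose_zero,
    conjTranspose_neg, conjTranspose_conjTranspose, neg_zero, neg_neg]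

lemma G_sq (n : ℕ) : G n * G n = -1 := by
  unfold G
  rw [fromBlocks_multiply, ← fromBlocks_one, fromBlocks_neg]
  simp only [Matrix.zero_mul, Matrix.mul_zero, zero_add, add_zero, Matrix.mul_neg, Matrix.neg_mul,
    F_mul, F_mul', neg_zero]

lemma G_norm (n : ℕ) (k l : Fin n ⊕ Fin n) : ‖G n k l‖ ≤ 1 / √n := by
  unfold G
  rcases k with k | k <;> rcases l with l | l
  · rw [fromBlocks_apply₁₁, Matrix.zero_apply, norm_zero]; positivity
  · rw [fromBlocks_apply₁₂]; exact (F_norm n k l).le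
  · rw [fromBlocks_apply₂₁, Matrix.neg_apply, norm_neg, conjTranspose_apply, norm_star]
    exact (F_norm n l k).le
  · rw [fromBlocks_apply₂₂, Matrix.zero_apply, norm_zero]; positivity

lemma G_diag (n : ℕ) (k : Fin n ⊕ Fin n) : G n k k = 0 := by
  unfold G
  rcases k with k | k
  · rw [fromBlocks_apply₁₁, Matrix.zero_apply]
  · rw [fromBlocks_apply₂₂, Matrix.zero_apply]

/-! ### Products -/

open Pool.Agent.V8H59.RF

lemma Wm_congr {ι : Type} [Fintype ι] [DecidableEq ι] {R R' : ℕ → Matrix ι ι ℂ} (m : ℕ)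
    (h : ∀ t < m, R t = R' t) : Wm R m = Wm R' m := by
  induction m with
  | zero => rfl
  | succ m ih =>
    show R m * Wm R m = R' m * Wm R' m
    rw [h m (by omega), ih fun t ht => h t (by omega)]

lemma Wm_list {ι : Type} [Fintype ι] [DecidableEq ι] (L : List (Matrix ι ι ℂ)) :
    Wm (fun t => L.reverse.getD t 1) L.length = L.prod := by
  induction L with
  | nil => rfl
  | cons A M ih =>
    rw [List.length_cons, List.prod_cons, ← ih]
    show (A :: M).reverse.getD M.length 1 * Wm (fun t => (A :: M).reverse.getD t 1) M.length = _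
    have e1 : (A :: M).reverse.getD M.length 1 = A := by
      rw [List.reverse_cons, List.getD_append_right _ _ _ _ (by rw [List.length_reverse]),
        List.length_reverse, Nat.sub_self]
      rfl
    have e2 : Wm (fun t => (A :: M).reverse.getD t 1) M.length =
        Wm (fun t => M.reverse.getD t 1) M.length := by
      refine Wm_congr _ fun t ht => ?_
      show (A :: M).reverse.getD t 1 = M.reverse.getD t 1
      rw [List.reverse_cons, List.getD_append _ _ _ _ (by rw [List.length_reverse]; exact ht)]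
    rw [e1, e2]

/-- **MP_7fb13b_lc**: a lower bound `c g(α) n log n` with `g(α) / α → ∞`: every algorithm for the
rotated Fourier matrix `X_α` has at least `c α √(log (1 / α)) n log n` steps. -/
theorem result : ∃ c : ℝ, 0 < c ∧ ∃ α0 : ℝ, 0 < α0 ∧ α0 < 1 ∧ ∀ α : ℝ, 0 < α → α < α0 →
    ∀ n : ℕ, 2 ≤ n → ∀ m : ℕ, IsAlgorithm m (X n α) →
      c * (α * √(Real.log (1 / α))) * (n * Real.log n) ≤ m := by
  obtain ⟨c, hc, α0, h0, h1, h⟩ := lower
  refine ⟨c, hc, α0, h0, h1, ?_⟩
  intro α hα hα0 n hn m hm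
  obtain ⟨L, hL, hT, hp⟩ := hm
  have hne : Nonempty (Fin n ⊕ Fin n) := ⟨Sum.inl ⟨0, by omega⟩⟩
  have hex : ∀ t : ℕ, ∃ ij : (Fin n ⊕ Fin n) × (Fin n ⊕ Fin n), t < m →
      Gt ij.1 ij.2 (L.reverse.getD t 1) := by
    intro t
    by_cases ht : t < m
    · have hmem : L.reverse.getD t 1 ∈ L := by
        rw [List.getD_eq_getElem _ _ (by rw [List.length_reverse]; omega), ← List.mem_reverse]
        exact List.getElem_mem _
      obtain ⟨i, j, hij, hu, hoff⟩ := hT _ hmem
      refine ⟨(i, j), fun _ => ⟨hij, ?_, ?_, hoff⟩⟩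
      · have := (mem_unitaryGroup_iff'.1 hu)
        rwa [star_eq_conjTranspose] at this
      · have := (mem_unitaryGroup_iff.1 hu)
        rwa [star_eq_conjTranspose] at this
    · exact ⟨(hne.some, hne.some), fun h => absurd h ht⟩
  choose ij hij using hex
  have hfin := h (Fin n ⊕ Fin n) m n (fun t => (ij t).1) (fun t => (ij t).2)
    (fun t => L.reverse.getD t 1) (G n) α (fun t ht => hij t ht) hn
    (by rw [Fintype.card_sum, Fintype.card_fin]; ring) (G_star n) (G_sq n) (G_norm n) (G_diag n)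
    hα hα0 (by rw [← hL, Wm_list, hp]; rfl)
  have e : c * (α * √(Real.log (1 / α))) * (n * Real.log n) =
      c * α * √(Real.log (1 / α)) * (n * Real.log n) := by ring
  rw [e]
  exact hfin

end

end Pool.Agent.Results.MP_7fb13b_lc.SqrtLogGain
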